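import Pool.Agent.Q123.DS.Cover

/-!
# Solid sets: the conclusion in terms of centred convex coset progressions
-/

set_option autoImplicit false
open scoped Pointwise
open Finset

namespace Q123.DS

variable {ι : Type*} [Fintype ι] [DecidableEq ι]

/-- The body `{v : |v j| ≤ n j}`. -/
def body {r : ℕ} (n : Fin r → ℕ) : Set (Fin r → ℝ) :=
  Set.Icc (fun j => -(n j : ℝ)) (fun j => (n j : ℝ))

theorem body_interior {r : ℕ} (n : Fin r → ℕ) (hn : ∀ j, n j ≠ 0) :
    (interior (body n)).Nonempty := by
  refine ⟨0, mem_interior.2 ⟨Metric.ball 0 1, ?_, Metric.isOpen_ball, by simp⟩⟩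
  intro v hv
  rw [mem_ball_zero_iff, pi_norm_lt_iff one_pos] at hv
  have h1 : ∀ j, |v j| < 1 := fun j => by
    have := hv j
    rwa [Real.norm_eq_abs] at this
  have h2 : ∀ j, (1 : ℝ) ≤ n j := fun j => by
    exact_mod_cast Nat.one_le_iff_ne_zero.2 (hn j)
  constructor
  · intro j
    have h3 := (abs_lt.1 (h1 j)).1
    have h4 := h2 j
    simp only
    linarith
  · intro j
    have h3 := (abs_lt.1 (h1 j)).2
    have h4 := h2 j
    simp only
    linarith

theorem body_ncard {r : ℕ} (n : Fin r → ℕ) :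
    {x : Fin r → ℤ | (fun i => (x i : ℝ)) ∈ body n}.ncard = ∏ j, (2 * n j + 1) := by
  have h1 : {x : Fin r → ℤ | (fun i => (x i : ℝ)) ∈ body n} =
      ((Fintype.piFinset fun j => Icc (-(n j : ℤ)) (n j : ℤ) : Finset (Fin r → ℤ)) :
        Set (Fin r → ℤ)) := by
    ext x
    simp only [body, Set.mem_ofPred_eq, Set.mem_Icc, Pi.le_def, mem_coe, Fintype.mem_piFinset,
      mem_Icc]
    constructor
    · rintro ⟨h1, h2⟩ j
      exact ⟨by exact_mod_cast h1 j, by exact_mod_cast h2 j⟩
    · intro h
      exact ⟨fun j => by exact_mod_cast (h j).1, fun j => by exact_mod_cast (h j).2⟩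
  rw [h1, Set.ncard_coe_finset, Fintype.card_piFinset]
  apply prod_congr rfl
  intro j _
  rw [Int.card_Icc]
  omega

/-- Extension by zero. -/
def ext {r : ℕ} (e : Fin r → ι) : (Fin r → ℤ) →+ (ι → ℤ) where
  toFun v := fun i => ∑ j, if e j = i then v j else 0
  map_zero' := by
    funext i
    simp
  map_add' v w := by
    funext i
    simp only [Pi.add_apply]
    rw [← sum_add_distrib]
    apply sum_congr rfl
    intro j _
    split_ifs <;> simp

theorem ext_apply {r : ℕ} {e : Fin r → ι} (he : Function.Injective e) (v : Fin r → ℤ) (j : Fin r) :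
    ext e v (e j) = v j := by
  simp only [ext, AddMonoidHom.coe_mk, ZeroHom.coe_mk]
  rw [sum_eq_single j]
  · simp
  · intro k _ hk
    rw [if_neg (fun h => hk (he h))]
  · simp

theorem ext_apply_of_notMem {r : ℕ} {e : Fin r → ι} (v : Fin r → ℤ) {i : ι}
    (hi : ∀ j, e j ≠ i) : ext e v i = 0 := by
  simp only [ext, AddMonoidHom.coe_mk, ZeroHom.coe_mk]
  exact sum_eq_zero fun j _ => if_neg (hi j)

variable {Γ : Type*} [AddCommGroup Γ] [DecidableEq Γ]

/-- **Polynomial Freiman-Ruzsa theorem for proper images of solid sets.** -/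
theorem coset_form (φ : (ι → ℤ) →+ Γ) {D : Finset (ι → ℤ)} (hD : Solid D) (hne : D.Nonempty)
    (hφ : Set.InjOn φ (D + D : Finset (ι → ℤ))) {K : ℝ}
    (hK : ((D.image φ + D.image φ).card : ℝ) ≤ K * (D.image φ).card) :
    ∃ (r : ℕ) (B : Set (Fin r → ℝ)) (ψ : (Fin r → ℤ) →+ Γ) (T : Finset Γ),
      (r : ℝ) ≤ Real.logb 2 (2 * K) ∧
      Convex ℝ B ∧ IsCompact B ∧ (interior B).Nonempty ∧ (∀ x ∈ B, -x ∈ B) ∧
      {x : Fin r → ℤ | (fun i => (x i : ℝ)) ∈ B}.ncard ≤ (D.image φ).card ∧
      (T.card : ℝ) ≤ 1024 * K ^ 10 ∧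
      ∀ a ∈ D.image φ, ∃ t ∈ T, ∃ x : Fin r → ℤ, (fun i => (x i : ℝ)) ∈ B ∧ a = t + ψ x := by
  have hsub : D ⊆ D + D := by
    intro x hx
    have := add_mem_add hx (zero_mem hD hne)
    rwa [add_zero] at this
  have hinj : Set.InjOn φ D := fun x hx y hy h => hφ (hsub hx) (hsub hy) h
  have hc1 : (D.image φ).card = D.card := card_image_of_injOn hinj
  have hc2 : (D.image φ + D.image φ).card = (D + D).card := by
    rw [← image_add, card_image_of_injOn hφ]
  rw [hc1, hc2] at hK
  obtain ⟨n, T, h1, h2, h3, h4⟩ := cover hD hne hK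
  have hK1 := one_le_of_card_add hD hne hK
  set I := univ.filter fun i => n i ≠ 0 with hI
  set e : Fin I.card → ι := fun j => (I.equivFin.symm j : ι) with he
  have heinj : Function.Injective e := fun j k h => I.equivFin.symm.injective (Subtype.ext h)
  have hmem : ∀ j, n (e j) ≠ 0 := fun j => by
    have h : (e j) ∈ I := (I.equivFin.symm j).2
    exact (mem_filter.1 h).2
  have hsurj : ∀ i, n i ≠ 0 → ∃ j, e j = i := by
    intro i hi
    have hiI : i ∈ I := by simp [hI, hi]
    refine ⟨I.equivFin ⟨i, hiI⟩, ?_⟩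
    simp [he]
  refine ⟨I.card, body fun j => n (e j), φ.comp (ext e), T.image φ, ?_, convex_Icc _ _,
    isCompact_Icc, body_interior _ hmem, ?_, ?_, ?_, ?_⟩
  · rw [Real.le_logb_iff_rpow_le (by norm_num) (by linarith), Real.rpow_natCast]
    exact h1
  · intro v hv
    constructor
    · intro j
      have := hv.2 j
      simp only [Pi.neg_apply] at this ⊢
      linarith
    · intro j
      have := hv.1 j
      simp only [Pi.neg_apply] at this ⊢
      linarith
  · rw [body_ncard, hc1]
    refine le_trans (le_of_eq ?_) h2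
    have h5 : ∏ i, (2 * n i + 1) = ∏ i ∈ I, (2 * n i + 1) := by
      symm
      apply prod_subset (subset_univ _)
      intro i _ hi
      simp only [hI, mem_filter, mem_univ, true_and, not_not] at hi
      simp [hi]
    rw [h5, ← prod_coe_sort I]
    exact Fintype.prod_equiv I.equivFin.symm _ _ fun j => rfl
  · refine le_trans ?_ h3
    exact_mod_cast card_image_le
  · intro a ha
    obtain ⟨d, hd, rfl⟩ := mem_image.1 ha
    obtain ⟨t, ht, htd⟩ := h4 d hd
    refine ⟨φ t, mem_image_of_mem _ ht, fun j => d (e j) - t (e j), ?_, ?_⟩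
    · constructor
      · intro j
        have := (abs_le.1 (htd (e j))).1
        simp only
        exact_mod_cast this
      · intro j
        have := (abs_le.1 (htd (e j))).2
        simp only
        exact_mod_cast this
    · rw [AddMonoidHom.comp_apply, ← map_add]
      congr 1
      funext i
      rw [Pi.add_apply]
      by_cases hi : n i = 0
      · rw [ext_apply_of_notMem _ (fun j hj => hmem j (by rw [hj]; exact hi))]
        have := htd i
        rw [hi] at this
        simp only [Nat.cast_zero, abs_nonpos_iff] at this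
        omega
      · obtain ⟨j, rfl⟩ := hsurj i hi
        rw [ext_apply heinj]
        ring

end Q123.DS
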