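import Mathlib

/-!
# Solid sets of integer points

A set of integer points is solid if with every point `x` it contains all the integer points of the
box spanned by `0` and `x`. Down-sets of `ℕ^d` and coordinatewise symmetric hereditary sets are
solid.
-/

set_option autoImplicit false
open scoped Pointwise
open Finset

namespace Q123.DS

variable {ι : Type*} [Fintype ι] [DecidableEq ι]

/-- `A` contains with every point `x` all integer points of the box spanned by `0` and `x`. -/
def Solid (A : Finset (ι → ℤ)) : Prop :=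
  ∀ x ∈ A, ∀ y : ι → ℤ, (∀ i, (0 ≤ y i ∧ y i ≤ x i) ∨ (x i ≤ y i ∧ y i ≤ 0)) → y ∈ A

/-- The set of the nonzero coordinates. -/
def supp (x : ι → ℤ) : Finset ι := univ.filter fun i => x i ≠ 0

/-- The number of integer points of the box spanned by `0` and `x`. -/
def box (x : ι → ℤ) : ℕ := ∏ i, ((x i).natAbs + 1)

/-- `2 x - sign x` on a set of coordinates. -/
def dbl (x : ι → ℤ) (J : Finset ι) : ι → ℤ := fun i => 2 * x i - if i ∈ J then (x i).sign else 0

theorem dbl_mem {A : Finset (ι → ℤ)} (hA : Solid A) {x : ι → ℤ} (hx : x ∈ A) (J : Finset ι) :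
    dbl x J ∈ A + A := by
  have h : (fun i => x i - if i ∈ J then (x i).sign else 0) ∈ A := by
    apply hA x hx
    intro i
    rcases lt_trichotomy (x i) 0 with h | h | h
    · right
      rw [Int.sign_eq_neg_one_of_neg h]
      split_ifs <;> omega
    · left
      rw [h]
      simp
    · left
      rw [Int.sign_eq_one_of_pos h]
      split_ifs <;> omega
  have h2 : dbl x J = x + fun i => x i - if i ∈ J then (x i).sign else 0 := by
    funext i
    simp only [dbl, Pi.add_apply]
    ring
  rw [h2]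
  exact add_mem_add hx h

theorem dbl_inj {x y : ι → ℤ} {J L : Finset ι} (hJ : J ⊆ supp x) (hL : L ⊆ supp y)
    (h : dbl x J = dbl y L) : x = y ∧ J = L := by
  have key : ∀ i, x i = y i ∧ (i ∈ J ↔ i ∈ L) := by
    intro i
    have hi := congrFun h i
    simp only [dbl] at hi
    have hJ' : i ∈ J → x i ≠ 0 := fun hh => by
      have := hJ hh
      simpa [supp] using this
    have hL' : i ∈ L → y i ≠ 0 := fun hh => by
      have := hL hh
      simpa [supp] using this
    by_cases h1 : i ∈ J <;> by_cases h2 : i ∈ L <;> simp only [h1, h2, if_true, if_false] at hi ⊢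
    · have hx0 := hJ' h1
      have hy0 := hL' h2
      rcases lt_or_gt_of_ne hx0 with hx | hx <;> rcases lt_or_gt_of_ne hy0 with hy | hy
      · rw [Int.sign_eq_neg_one_of_neg hx, Int.sign_eq_neg_one_of_neg hy] at hi
        exact ⟨by omega, by simp⟩
      · rw [Int.sign_eq_neg_one_of_neg hx, Int.sign_eq_one_of_pos hy] at hi
        omega
      · rw [Int.sign_eq_one_of_pos hx, Int.sign_eq_neg_one_of_neg hy] at hi
        omega
      · rw [Int.sign_eq_one_of_pos hx, Int.sign_eq_one_of_pos hy] at hi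
        exact ⟨by omega, by simp⟩
    · have hx0 := hJ' h1
      rcases lt_or_gt_of_ne hx0 with hx | hx
      · rw [Int.sign_eq_neg_one_of_neg hx] at hi
        omega
      · rw [Int.sign_eq_one_of_pos hx] at hi
        omega
    · have hy0 := hL' h2
      rcases lt_or_gt_of_ne hy0 with hy | hy
      · rw [Int.sign_eq_neg_one_of_neg hy] at hi
        omega
      · rw [Int.sign_eq_one_of_pos hy] at hi
        omega
    · exact ⟨by omega, by simp⟩
  exact ⟨funext fun i => (key i).1, Finset.ext fun i => (key i).2⟩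

/-- **Few coordinates.** A solid set has at least `∑ 2 ^ |supp x|` sums. -/
theorem sum_two_pow_le {A : Finset (ι → ℤ)} (hA : Solid A) :
    ∑ x ∈ A, 2 ^ (supp x).card ≤ (A + A).card := by
  have h1 : ∑ x ∈ A, 2 ^ (supp x).card = (A.sigma fun x => (supp x).powerset).card := by
    rw [card_sigma]
    exact sum_congr rfl fun x _ => (card_powerset _).symm
  rw [h1]
  apply card_le_card_of_injOn (fun p => dbl p.1 p.2)
  · intro p hp
    have hp' := mem_coe.1 hp
    rw [mem_sigma] at hp'
    exact dbl_mem hA hp'.1 _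
  · intro p hp q hq hpq
    have hp' := mem_coe.1 hp
    have hq' := mem_coe.1 hq
    rw [mem_sigma, mem_powerset] at hp' hq'
    obtain ⟨h2, h3⟩ := dbl_inj hp'.2 hq'.2 hpq
    exact Sigma.ext h2 (heq_of_eq h3)

/-- The one of two integers which is farther from zero. -/
def far (a b : ℤ) : ℤ := if b.natAbs ≤ a.natAbs then a else b

theorem far_mem {A : Finset (ι → ℤ)} (hA : Solid A) {x y : ι → ℤ} (hx : x ∈ A) (hy : y ∈ A) :
    (fun i => far (x i) (y i)) ∈ A + A := by
  have h1 : (fun i => if (y i).natAbs ≤ (x i).natAbs then x i else 0) ∈ A := by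
    apply hA x hx
    intro i
    split_ifs <;> omega
  have h2 : (fun i => if (y i).natAbs ≤ (x i).natAbs then 0 else y i) ∈ A := by
    apply hA y hy
    intro i
    split_ifs <;> omega
  have h3 : (fun i => far (x i) (y i)) = (fun i => if (y i).natAbs ≤ (x i).natAbs then x i else 0) +
      fun i => if (y i).natAbs ≤ (x i).natAbs then 0 else y i := by
    funext i
    simp only [far, Pi.add_apply]
    split_ifs <;> simp
  rw [h3]
  exact add_mem_add h1 h2

/-- The weight of a pair of integers. -/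
noncomputable def wt (p : ℤ × ℤ) : ℝ :=
  if p.1 = 0 ∧ p.2 = 0 then 1 else 1 / (8 * √(p.1.natAbs + 1) * √(p.2.natAbs + 1))

theorem wt_nonneg (p : ℤ × ℤ) : 0 ≤ wt p := by
  unfold wt
  split_ifs <;> positivity

theorem sum_inv_sqrt (n : ℕ) :
    ∑ b ∈ Icc (-(n : ℤ)) n, 1 / √(b.natAbs + 1 : ℝ) ≤ 4 * √(n + 1) := by
  induction n with
  | zero => simp
  | succ n ih =>
    have hsub : Icc (-((n + 1 : ℕ) : ℤ)) ((n + 1 : ℕ) : ℤ) =
        insert ((n + 1 : ℕ) : ℤ) (insert (-((n + 1 : ℕ) : ℤ)) (Icc (-(n : ℤ)) n)) := by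
      ext b
      simp only [mem_Icc, mem_insert]
      omega
    rw [hsub, sum_insert, sum_insert]
    · have h1 : (1 : ℝ) / √((((n + 1 : ℕ) : ℤ)).natAbs + 1 : ℝ) = 1 / √((n : ℝ) + 1 + 1) := by
        rw [Int.natAbs_natCast]
        norm_num
      have h2 : (1 : ℝ) / √(((-((n + 1 : ℕ) : ℤ))).natAbs + 1 : ℝ) = 1 / √((n : ℝ) + 1 + 1) := by
        rw [Int.natAbs_neg, Int.natAbs_natCast]
        norm_num
      rw [h1, h2]
      have ha : 0 < √((n : ℝ) + 1) := Real.sqrt_pos.2 (by positivity)
      have hb : 0 < √((n : ℝ) + 1 + 1) := Real.sqrt_pos.2 (by positivity)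
      have hab : √((n : ℝ) + 1) ≤ √((n : ℝ) + 1 + 1) := Real.sqrt_le_sqrt (by linarith)
      have ha2 : √((n : ℝ) + 1) ^ 2 = (n : ℝ) + 1 := Real.sq_sqrt (by positivity)
      have hb2 : √((n : ℝ) + 1 + 1) ^ 2 = (n : ℝ) + 1 + 1 := Real.sq_sqrt (by positivity)
      have h3 : 1 / √((n : ℝ) + 1 + 1) ≤ 2 * (√((n : ℝ) + 1 + 1) - √((n : ℝ) + 1)) := by
        rw [div_le_iff₀ hb]
        nlinarith
      push_cast
      linarith
    · simp only [mem_Icc]
      omega
    · simp only [mem_insert, mem_Icc]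
      omega

/-- The pairs with a given farther member. -/
noncomputable def pairs (c : ℤ) : Finset (ℤ × ℤ) :=
  (Icc (-(c.natAbs : ℤ)) c.natAbs ×ˢ Icc (-(c.natAbs : ℤ)) c.natAbs).filter
    fun p => far p.1 p.2 = c

theorem mem_pairs {a b c : ℤ} (h : far a b = c) : (a, b) ∈ pairs c := by
  unfold far at h
  simp only [pairs, mem_filter, mem_product, mem_Icc, far]
  split_ifs at h ⊢ <;> omega

theorem sum_pairs_le (c : ℤ) : ∑ p ∈ pairs c, wt p ≤ 1 := by
  by_cases hc : c = 0
  · subst hc
    have : pairs 0 = {((0 : ℤ), (0 : ℤ))} := by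
      ext ⟨a, b⟩
      simp only [pairs, mem_filter, mem_product, mem_Icc, mem_singleton, Prod.mk.injEq, far]
      constructor
      · rintro ⟨h, -⟩
        simp at h
        omega
      · rintro ⟨rfl, rfl⟩
        simp
    rw [this, sum_singleton]
    simp [wt]
  · set m := c.natAbs with hm
    have hsub : pairs c ⊆ ((Icc (-(m : ℤ)) m).image fun b => (c, b)) ∪
        ((Icc (-(m : ℤ)) m).image fun a => (a, c)) := by
      rintro ⟨a, b⟩ hp
      simp only [pairs, mem_filter, mem_product, mem_Icc] at hp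
      obtain ⟨⟨h1, h2⟩, h3⟩ := hp
      unfold far at h3
      simp only [mem_union, mem_image, mem_Icc, Prod.mk.injEq]
      split_ifs at h3 with h
      · left
        exact ⟨b, h2, h3.symm, rfl⟩
      · right
        exact ⟨a, h1, rfl, h3.symm⟩
    have hw1 : ∀ b : ℤ, wt (c, b) = 1 / (8 * √(m + 1)) * (1 / √(b.natAbs + 1 : ℝ)) := by
      intro b
      unfold wt
      rw [if_neg (fun h => hc h.1)]
      rw [one_div_mul_one_div]
    have hw2 : ∀ a : ℤ, wt (a, c) = 1 / (8 * √(m + 1)) * (1 / √(a.natAbs + 1 : ℝ)) := by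
      intro a
      unfold wt
      rw [if_neg (fun h => hc h.2), one_div_mul_one_div]
      congr 1
      simp only
      rw [← hm]
      ring
    have hpos : 0 < √((m : ℝ) + 1) := Real.sqrt_pos.2 (by positivity)
    have hbound : ∑ b ∈ Icc (-(m : ℤ)) m, 1 / (8 * √((m : ℝ) + 1)) * (1 / √(b.natAbs + 1 : ℝ)) ≤
        1 / 2 := by
      rw [← mul_sum]
      calc 1 / (8 * √((m : ℝ) + 1)) * ∑ b ∈ Icc (-(m : ℤ)) m, 1 / √(b.natAbs + 1 : ℝ)
          ≤ 1 / (8 * √((m : ℝ) + 1)) * (4 * √(m + 1)) :=
            mul_le_mul_of_nonneg_left (sum_inv_sqrt m) (by positivity)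
        _ = 1 / 2 := by field_simp; norm_num
    calc ∑ p ∈ pairs c, wt p
        ≤ ∑ p ∈ ((Icc (-(m : ℤ)) m).image fun b => (c, b)) ∪
          ((Icc (-(m : ℤ)) m).image fun a => (a, c)), wt p :=
          sum_le_sum_of_subset_of_nonneg hsub fun p _ _ => wt_nonneg p
      _ ≤ ∑ p ∈ (Icc (-(m : ℤ)) m).image (fun b => (c, b)), wt p +
          ∑ p ∈ (Icc (-(m : ℤ)) m).image (fun a => (a, c)), wt p := by
          rw [← sum_union_inter]
          exact le_add_of_nonneg_right (sum_nonneg fun p _ => wt_nonneg p)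
      _ = ∑ b ∈ Icc (-(m : ℤ)) m, wt (c, b) + ∑ a ∈ Icc (-(m : ℤ)) m, wt (a, c) := by
          rw [sum_image, sum_image]
          · intro a _ b _ h
            exact (Prod.mk.inj h).1
          · intro a _ b _ h
            exact (Prod.mk.inj h).2
      _ ≤ 1 / 2 + 1 / 2 := by
          apply add_le_add
          · rw [sum_congr rfl fun b _ => hw1 b]
            exact hbound
          · rw [sum_congr rfl fun a _ => hw2 a]
            exact hbound
      _ = 1 := by norm_num

/-- **Large coordinates.** A solid set has at least as many sums as the total weight of its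
pairs of points. -/
theorem sum_wt_le {A B : Finset (ι → ℤ)} (hA : Solid A) (hB : B ⊆ A) :
    ∑ p ∈ B ×ˢ B, ∏ i, wt (p.1 i, p.2 i) ≤ ((A + A).card : ℝ) := by
  have hmap : ∀ p ∈ B ×ˢ B, (fun i => far (p.1 i) (p.2 i)) ∈ A + A := by
    intro p hp
    rw [mem_product] at hp
    exact far_mem hA (hB hp.1) (hB hp.2)
  rw [← sum_fiberwise_of_maps_to hmap]
  rw [card_eq_sum_ones, Nat.cast_sum]
  apply sum_le_sum
  intro z _
  rw [Nat.cast_one]
  calc ∑ p ∈ (B ×ˢ B).filter (fun p => (fun i => far (p.1 i) (p.2 i)) = z), ∏ i, wt (p.1 i, p.2 i)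
      = ∑ q ∈ ((B ×ˢ B).filter (fun p => (fun i => far (p.1 i) (p.2 i)) = z)).image
          (fun p => fun i => (p.1 i, p.2 i)), ∏ i, wt (q i) := by
        rw [sum_image]
        intro p _ q _ h
        refine Prod.ext (funext fun i => ?_) (funext fun i => ?_)
        · exact (Prod.mk.inj (congrFun h i)).1
        · exact (Prod.mk.inj (congrFun h i)).2
    _ ≤ ∑ q ∈ Fintype.piFinset fun i => pairs (z i), ∏ i, wt (q i) := by
        apply sum_le_sum_of_subset_of_nonneg
        · intro q hq
          rw [mem_image] at hq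
          obtain ⟨p, hp, rfl⟩ := hq
          rw [mem_filter] at hp
          rw [Fintype.mem_piFinset]
          intro i
          exact mem_pairs (congrFun hp.2 i)
        · intro q _ _
          exact prod_nonneg fun i _ => wt_nonneg _
    _ = ∏ i, ∑ p ∈ pairs (z i), wt p := by rw [prod_univ_sum]
    _ ≤ ∏ _i : ι, (1 : ℝ) := prod_le_prod (fun i _ => sum_nonneg fun p _ => wt_nonneg p)
        fun i _ => sum_pairs_le _
    _ = 1 := by simp

theorem wt_ge {x y : ι → ℤ} {M : ℝ} (hM : 0 < M) (hx : (box x : ℝ) ≤ M) (hy : (box y : ℝ) ≤ M) :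
    1 / (8 ^ (supp x).card * 8 ^ (supp y).card * M) ≤ ∏ i, wt (x i, y i) := by
  have h1 : ∀ i, 1 / ((if x i ≠ 0 then 8 else 1) * (if y i ≠ 0 then 8 else 1) *
      (√((x i).natAbs + 1) * √((y i).natAbs + 1))) ≤ wt (x i, y i) := by
    intro i
    have ha : 1 ≤ √(((x i).natAbs : ℝ) + 1) := by
      rw [show (1 : ℝ) = √1 by simp]
      exact Real.sqrt_le_sqrt (by simp)
    have hb : 1 ≤ √(((y i).natAbs : ℝ) + 1) := by
      rw [show (1 : ℝ) = √1 by simp]
      exact Real.sqrt_le_sqrt (by simp)
    have hab : 1 ≤ √(((x i).natAbs : ℝ) + 1) * √(((y i).natAbs : ℝ) + 1) :=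
      one_le_mul_of_one_le_of_one_le ha hb
    unfold wt
    by_cases h1 : x i = 0 <;> by_cases h2 : y i = 0
    · rw [if_neg (not_not.2 h1), if_neg (not_not.2 h2), if_pos ⟨h1, h2⟩]
      rw [div_le_one (by positivity)]
      linarith
    · rw [if_neg (not_not.2 h1), if_pos h2, if_neg (fun h => h2 h.2)]
      apply one_div_le_one_div_of_le (by positivity)
      simp only
      nlinarith
    · rw [if_pos h1, if_neg (not_not.2 h2), if_neg (fun h => h1 h.1)]
      apply one_div_le_one_div_of_le (by positivity)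
      simp only
      nlinarith
    · rw [if_pos h1, if_pos h2, if_neg (fun h => h1 h.1)]
      apply one_div_le_one_div_of_le (by positivity)
      simp only
      nlinarith
  have h2 : ∏ i, 1 / (((if x i ≠ 0 then 8 else 1) * (if y i ≠ 0 then 8 else 1) *
      (√((x i).natAbs + 1) * √((y i).natAbs + 1)) : ℝ)) ≤ ∏ i, wt (x i, y i) := by
    apply prod_le_prod
    · intro i _
      apply div_nonneg zero_le_one
      apply mul_nonneg
      · apply mul_nonneg <;> split_ifs <;> norm_num
      · positivity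
    · intro i _
      exact h1 i
  refine le_trans ?_ h2
  rw [prod_div_distrib, prod_const_one, prod_mul_distrib, prod_mul_distrib, prod_mul_distrib]
  have h3 : ∀ z : ι → ℤ, ∏ i, (if z i ≠ 0 then (8 : ℝ) else 1) = 8 ^ (supp z).card := by
    intro z
    rw [prod_ite, prod_const, prod_const_one, mul_one]
    rfl
  have h4 : ∀ z : ι → ℤ, ∏ i, √(((z i).natAbs : ℝ) + 1) = √(box z : ℝ) := by
    intro z
    unfold box
    push_cast
    rw [← Real.sqrt_prod]
    intro i _
    positivity
  rw [h3, h3, h4, h4]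
  have hbx : (0 : ℝ) < box x := by
    unfold box
    exact_mod_cast prod_pos fun i _ => Nat.succ_pos _
  have hby : (0 : ℝ) < box y := by
    unfold box
    exact_mod_cast prod_pos fun i _ => Nat.succ_pos _
  have h5 : √(box x : ℝ) * √(box y : ℝ) ≤ M := by
    calc √(box x : ℝ) * √(box y : ℝ) ≤ √M * √M := by
          apply mul_le_mul (Real.sqrt_le_sqrt hx) (Real.sqrt_le_sqrt hy) (Real.sqrt_nonneg _)
            (Real.sqrt_nonneg _)
      _ = M := Real.mul_self_sqrt hM.le
  apply one_div_le_one_div_of_le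
  · positivity
  · exact mul_le_mul_of_nonneg_left h5 (by positivity)

end Q123.DS
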