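import Pool.Agent.Q123.DS.Basic

/-!
# The polynomial Freiman-Ruzsa theorem for solid sets of integer points
-/

set_option autoImplicit false
open scoped Pointwise
open Finset

namespace Q123.DS

variable {ι : Type*} [Fintype ι] [DecidableEq ι]

theorem zero_mem {A : Finset (ι → ℤ)} (hA : Solid A) (hne : A.Nonempty) : (0 : ι → ℤ) ∈ A := by
  obtain ⟨x, hx⟩ := hne
  apply hA x hx
  intro i
  simp only [Pi.zero_apply]
  omega

theorem one_le_of_card_add {A : Finset (ι → ℤ)} (hA : Solid A) (hne : A.Nonempty) {K : ℝ}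
    (hK : ((A + A).card : ℝ) ≤ K * A.card) : 1 ≤ K := by
  have h1 : A ⊆ A + A := by
    intro x hx
    have := add_mem_add hx (zero_mem hA hne)
    rwa [add_zero] at this
  have h2 : (A.card : ℝ) ≤ (A + A).card := by exact_mod_cast card_le_card h1
  have h3 : (0 : ℝ) < A.card := by exact_mod_cast hne.card_pos
  by_contra hcon
  push Not at hcon
  nlinarith

/-- **A large box.** A solid set with `|A + A| ≤ K |A|` contains a box with at least
`|A| / (256 K ^ 7)` points and at most `log_2 (2 K)` nontrivial sides. -/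
theorem big_box {A : Finset (ι → ℤ)} (hA : Solid A) (hne : A.Nonempty) {K : ℝ}
    (hK : ((A + A).card : ℝ) ≤ K * A.card) :
    ∃ x ∈ A, (2 : ℝ) ^ (supp x).card ≤ 2 * K ∧ (A.card : ℝ) ≤ 256 * K ^ 7 * box x := by
  have hK1 := one_le_of_card_add hA hne hK
  have hA0 : (0 : ℝ) < A.card := by exact_mod_cast hne.card_pos
  set A' := A.filter fun x => (2 : ℝ) ^ (supp x).card ≤ 2 * K with hA'
  have hbad : ((A.filter fun x => ¬ (2 : ℝ) ^ (supp x).card ≤ 2 * K).card : ℝ) ≤ A.card / 2 := by
    have h1 : ((A.filter fun x => ¬ (2 : ℝ) ^ (supp x).card ≤ 2 * K).card : ℝ) * (2 * K) ≤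
        K * A.card := by
      calc ((A.filter fun x => ¬ (2 : ℝ) ^ (supp x).card ≤ 2 * K).card : ℝ) * (2 * K)
          = ∑ _x ∈ A.filter (fun x => ¬ (2 : ℝ) ^ (supp x).card ≤ 2 * K), 2 * K := by
            rw [sum_const, nsmul_eq_mul]
        _ ≤ ∑ x ∈ A.filter (fun x => ¬ (2 : ℝ) ^ (supp x).card ≤ 2 * K),
            (2 : ℝ) ^ (supp x).card := by
            apply sum_le_sum
            intro x hx
            rw [mem_filter] at hx
            exact (not_le.1 hx.2).le
        _ ≤ ∑ x ∈ A, (2 : ℝ) ^ (supp x).card :=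
            sum_le_sum_of_subset_of_nonneg (filter_subset _ _) fun x _ _ => by positivity
        _ ≤ ((A + A).card : ℝ) := by exact_mod_cast sum_two_pow_le hA
        _ ≤ K * A.card := hK
    have h2 : (0 : ℝ) < 2 * K := by linarith
    rw [le_div_iff₀ (by norm_num : (0 : ℝ) < 2)]
    nlinarith
  have hsplit : ((A'.card : ℝ)) + (A.filter fun x => ¬ (2 : ℝ) ^ (supp x).card ≤ 2 * K).card =
      A.card := by
    rw [hA', ← Nat.cast_add, card_filter_add_card_filter_not]
  have hA'2 : (A.card : ℝ) / 2 ≤ A'.card := by linarith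
  have hne' : A'.Nonempty := by
    rw [← card_pos]
    have : (0 : ℝ) < A'.card := by linarith
    exact_mod_cast this
  obtain ⟨x, hx, hmax⟩ := exists_max_image A' box hne'
  have hxA : x ∈ A := (mem_filter.1 hx).1
  have hx2 : (2 : ℝ) ^ (supp x).card ≤ 2 * K := (mem_filter.1 hx).2
  refine ⟨x, hxA, hx2, ?_⟩
  have hb0 : (0 : ℝ) < box x := by
    unfold box
    exact_mod_cast prod_pos fun i _ => Nat.succ_pos _
  have h8 : ∀ y ∈ A', (8 : ℝ) ^ (supp y).card ≤ (2 * K) ^ 3 := by
    intro y hy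
    have h1 : (2 : ℝ) ^ (supp y).card ≤ 2 * K := (mem_filter.1 hy).2
    calc (8 : ℝ) ^ (supp y).card = ((2 : ℝ) ^ (supp y).card) ^ 3 := by
          rw [← pow_mul, mul_comm, pow_mul]
          norm_num
      _ ≤ (2 * K) ^ 3 := pow_le_pow_left₀ (by positivity) h1 3
  have h1 : (A'.card : ℝ) ^ 2 * (1 / ((2 * K) ^ 3 * (2 * K) ^ 3 * box x)) ≤ ((A + A).card : ℝ) := by
    calc (A'.card : ℝ) ^ 2 * (1 / ((2 * K) ^ 3 * (2 * K) ^ 3 * box x))
        = ∑ _p ∈ A' ×ˢ A', 1 / ((2 * K) ^ 3 * (2 * K) ^ 3 * (box x : ℝ)) := by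
          rw [sum_const, card_product, nsmul_eq_mul, Nat.cast_mul]
          ring
      _ ≤ ∑ p ∈ A' ×ˢ A', ∏ i, wt (p.1 i, p.2 i) := by
          apply sum_le_sum
          intro p hp
          rw [mem_product] at hp
          refine le_trans ?_ (wt_ge hb0 (by exact_mod_cast hmax _ hp.1)
            (by exact_mod_cast hmax _ hp.2))
          apply one_div_le_one_div_of_le (by positivity)
          exact mul_le_mul_of_nonneg_right (mul_le_mul (h8 _ hp.1) (h8 _ hp.2) (by positivity)
            (by positivity)) hb0.le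
      _ ≤ _ := sum_wt_le hA (filter_subset _ _)
  have h2 : (A'.card : ℝ) ^ 2 ≤ K * A.card * ((2 * K) ^ 3 * (2 * K) ^ 3 * box x) := by
    have h3 := h1.trans hK
    rw [mul_one_div, div_le_iff₀ (by positivity)] at h3
    exact h3
  have h4 : ((A.card : ℝ) / 2) ^ 2 ≤ (A'.card : ℝ) ^ 2 := pow_le_pow_left₀ (by positivity) hA'2 2
  have h5 : (A.card : ℝ) * A.card ≤ (256 * K ^ 7 * box x) * A.card := by
    nlinarith
  exact le_of_mul_le_mul_right h5 hA0

/-- The box spanned by `0` and `x`. -/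
noncomputable def Bx (x : ι → ℤ) : Finset (ι → ℤ) := Fintype.piFinset fun i => Icc (min 0 (x i)) (max 0 (x i))

theorem card_Bx (x : ι → ℤ) : (Bx x).card = box x := by
  unfold Bx box
  rw [Fintype.card_piFinset]
  apply prod_congr rfl
  intro i _
  rw [Int.card_Icc]
  omega

theorem Bx_subset {A : Finset (ι → ℤ)} (hA : Solid A) {x : ι → ℤ} (hx : x ∈ A) : Bx x ⊆ A := by
  intro y hy
  apply hA x hx
  intro i
  unfold Bx at hy
  rw [Fintype.mem_piFinset] at hy
  have := hy i
  rw [mem_Icc] at this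
  omega

/-- The centres of the three intervals covering an interval of double length. -/
def cen (x : ι → ℤ) : Finset (ι → ℤ) := Fintype.piFinset fun i =>
  {-((x i).natAbs - (x i).natAbs / 2 : ℤ), 0, ((x i).natAbs - (x i).natAbs / 2 : ℤ)}

theorem card_cen_le (x : ι → ℤ) : (cen x).card ≤ 3 ^ (supp x).card := by
  unfold cen supp
  rw [Fintype.card_piFinset]
  have h1 : ∀ i, ({-((x i).natAbs - (x i).natAbs / 2 : ℤ), 0,
      ((x i).natAbs - (x i).natAbs / 2 : ℤ)} : Finset ℤ).card ≤ if x i ≠ 0 then 3 else 1 := by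
    intro i
    split_ifs with h
    · exact card_le_three
    · rw [not_not.1 h]
      simp
  calc _ ≤ ∏ i, (if x i ≠ 0 then 3 else 1) := prod_le_prod' fun i _ => h1 i
    _ = _ := by rw [prod_ite, prod_const, prod_const_one, mul_one]

/-- **Polynomial Freiman-Ruzsa theorem for solid sets.** -/
theorem cover {A : Finset (ι → ℤ)} (hA : Solid A) (hne : A.Nonempty) {K : ℝ}
    (hK : ((A + A).card : ℝ) ≤ K * A.card) :
    ∃ (n : ι → ℕ) (T : Finset (ι → ℤ)),
      (2 : ℝ) ^ (univ.filter fun i => n i ≠ 0).card ≤ 2 * K ∧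
      ∏ i, (2 * n i + 1) ≤ A.card ∧
      (T.card : ℝ) ≤ 1024 * K ^ 10 ∧
      ∀ a ∈ A, ∃ t ∈ T, ∀ i, |a i - t i| ≤ n i := by
  have hK1 := one_le_of_card_add hA hne hK
  obtain ⟨x, hx, hx2, hbox⟩ := big_box hA hne hK
  have hb0 : (0 : ℝ) < box x := by
    unfold box
    exact_mod_cast prod_pos fun i _ => Nat.succ_pos _
  have hBne : (Bx x).Nonempty := by
    rw [← card_pos, card_Bx]
    exact_mod_cast hb0
  have hAB : ((A + Bx x).card : ℝ) ≤ (256 * K ^ 8) * (Bx x).card := by
    rw [card_Bx]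
    calc ((A + Bx x).card : ℝ) ≤ ((A + A).card : ℝ) := by
          exact_mod_cast card_le_card (add_subset_add_left (Bx_subset hA hx))
      _ ≤ K * A.card := hK
      _ ≤ K * (256 * K ^ 7 * box x) := mul_le_mul_of_nonneg_left hbox (by linarith)
      _ = _ := by ring
  obtain ⟨F, hFA, hF, hcov⟩ := ruzsa_covering_add hBne hAB
  refine ⟨fun i => (x i).natAbs / 2, F + cen x, ?_, ?_, ?_, ?_⟩
  · refine le_trans ?_ hx2
    apply pow_le_pow_right₀ (by norm_num)
    apply card_le_card
    intro i hi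
    simp only [mem_filter, mem_univ, true_and, supp] at hi ⊢
    intro h0
    rw [h0] at hi
    simp at hi
  · calc ∏ i, (2 * ((x i).natAbs / 2) + 1) ≤ box x := by
          unfold box
          exact prod_le_prod' fun i _ => by omega
      _ = (Bx x).card := (card_Bx x).symm
      _ ≤ A.card := card_le_card (Bx_subset hA hx)
  · calc ((F + cen x).card : ℝ) ≤ (F.card : ℝ) * (cen x).card := by
          exact_mod_cast card_add_le
      _ ≤ (256 * K ^ 8) * (2 * K) ^ 2 := by
          apply mul_le_mul hF _ (by positivity) (by positivity)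
          calc ((cen x).card : ℝ) ≤ (3 : ℝ) ^ (supp x).card := by exact_mod_cast card_cen_le x
            _ ≤ (4 : ℝ) ^ (supp x).card := pow_le_pow_left₀ (by norm_num) (by norm_num) _
            _ = ((2 : ℝ) ^ (supp x).card) ^ 2 := by
                rw [← pow_mul, mul_comm, pow_mul]
                norm_num
            _ ≤ (2 * K) ^ 2 := pow_le_pow_left₀ (by positivity) hx2 2
      _ = 1024 * K ^ 10 := by ring
  · intro a ha
    obtain ⟨f, hf, w, hw, rfl⟩ := mem_add.1 (hcov ha)
    obtain ⟨u, hu, v, hv, rfl⟩ := mem_sub.1 hw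
    unfold Bx at hu hv
    rw [Fintype.mem_piFinset] at hu hv
    -- the centre
    set c : ι → ℤ := fun i =>
      if (u i - v i) < -((x i).natAbs / 2 : ℕ) then -((x i).natAbs - (x i).natAbs / 2 : ℤ)
      else if (u i - v i) ≤ ((x i).natAbs / 2 : ℕ) then 0
      else ((x i).natAbs - (x i).natAbs / 2 : ℤ) with hc
    refine ⟨f + c, add_mem_add hf ?_, ?_⟩
    · unfold cen
      rw [Fintype.mem_piFinset]
      intro i
      simp only [hc, mem_insert, mem_singleton]
      split_ifs <;> simp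
    · intro i
      have h1 := hu i
      have h2 := hv i
      rw [mem_Icc] at h1 h2
      simp only [Pi.add_apply, Pi.sub_apply, hc]
      rw [abs_le]
      split_ifs <;> constructor <;> omega

end Q123.DS
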